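import Mathlib

set_option autoImplicit false

namespace Pool.Agent.Results.MP_071a69_co.Counter

open SimpleGraph Finset

/-- the wheel with rim the cycle on m vertices and hub none; it has m + 1 vertices -/
def wheel (m : ℕ) : SimpleGraph (Option (Fin m)) where
  Adj x y := match x, y with
    | none, none => False
    | none, some _ => True
    | some _, none => True
    | some a, some b => (cycleGraph m).Adj a b
  symm := ⟨by
    rintro (_ | a) (_ | b) h
    · exact h
    · trivial
    · trivial
    · exact h.symm⟩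
  loopless := ⟨by
    rintro (_ | a) h
    · exact h
    · exact (cycleGraph m).irrefl h⟩

/-- geodesic paths with at least one edge, up to reversal, recorded by their edge sets -/
def geodesics {V : Type} [DecidableEq V] (G : SimpleGraph V) : Set (Finset (Sym2 V)) :=
  {s | ∃ (u v : V) (p : G.Walk u v), p.IsPath ∧ 0 < p.length ∧ p.length = G.dist u v ∧
    s = p.edges.toFinset}

/-- G has a geodesic Leech labeling -/
def GeoLeech {V : Type} [DecidableEq V] (G : SimpleGraph V) : Prop :=
  ∃ f : Sym2 V → ℕ, (∀ e ∈ G.edgeSet, 0 < f e) ∧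
    Set.BijOn (fun s => ∑ e ∈ s, f e) (geodesics G) (Set.Icc 1 (geodesics G).ncard)

instance (m : ℕ) : DecidableRel (wheel m).Adj := fun x y =>
  match x, y with
  | none, none => isFalse id
  | none, some _ => isTrue trivial
  | some _, none => isTrue trivial
  | some a, some b => inferInstanceAs (Decidable ((cycleGraph m).Adj a b))

lemma geo_iff {V : Type} [DecidableEq V] (G : SimpleGraph V)
    (hd : ∀ u v, u = v ∨ G.Adj u v ∨ ∃ w, G.Adj u w ∧ G.Adj w v) (s : Finset (Sym2 V)) :
    s ∈ geodesics G ↔ (∃ u v, G.Adj u v ∧ s = {s(u, v)}) ∨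
      ∃ u w v, G.Adj u w ∧ G.Adj w v ∧ u ≠ v ∧ ¬ G.Adj u v ∧ s = {s(u, w), s(w, v)} := by
  constructor
  · rintro ⟨u, v, p, hp, h0, hl, rfl⟩
    have h2 : G.dist u v ≤ 2 := by
      rcases hd u v with rfl | h | ⟨w, h1, h2⟩
      · simp
      · rw [dist_eq_one_iff_adj.2 h]; omega
      · exact dist_le (Walk.cons h1 (Walk.cons h2 Walk.nil))
    cases p with
    | nil => simp at h0
    | cons h q =>
      cases q with
      | nil => exact Or.inl ⟨_, _, h, by simp⟩
      | cons h' r =>
        cases r with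
        | nil =>
          refine Or.inr ⟨_, _, _, h, h', ?_, ?_, by simp⟩
          · rintro rfl; simp at hl
          · intro ha; rw [dist_eq_one_iff_adj.2 ha] at hl; simp at hl
        | cons h'' r' => simp only [Walk.length_cons] at hl; omega
  · rintro (⟨u, v, h, rfl⟩ | ⟨u, w, v, h1, h2, h3, h4, rfl⟩)
    · exact ⟨u, v, Walk.cons h Walk.nil, by simp [h.ne], by simp,
        by simp [dist_eq_one_iff_adj.2 h], by simp⟩
    · refine ⟨u, v, Walk.cons h1 (Walk.cons h2 Walk.nil), by simp [h1.ne, h2.ne, h3], by simp,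
        ?_, by simp⟩
      have a1 := dist_le (Walk.cons h1 (Walk.cons h2 Walk.nil))
      have a2 : G.dist u v ≠ 0 := by
        rw [Ne, dist_eq_zero_iff_eq_or_not_reachable]
        push Not
        exact ⟨h3, ⟨Walk.cons h1 (Walk.cons h2 Walk.nil)⟩⟩
      have a3 : G.dist u v ≠ 1 := fun h => h4 (dist_eq_one_iff_adj.1 h)
      simp at a1 ⊢
      omega

def tab : Option (Fin 6) → Option (Fin 6) → ℕ
  | none, none => 0
  | none, some a => ![1, 2, 3, 15, 23, 7] a
  | some a, none => ![1, 2, 3, 15, 23, 7] a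
  | some a, some b => if b = a + 1 then ![5, 6, 12, 8, 13, 14] a
      else if a = b + 1 then ![5, 6, 12, 8, 13, 14] b else 0

def lab : Sym2 (Option (Fin 6)) → ℕ := Sym2.lift ⟨tab, by decide⟩

def E1 : List (Finset (Sym2 (Option (Fin 6)))) :=
  (List.finRange 6).map (fun a => {s(none, some a)}) ++
  (List.finRange 6).map (fun a => {s(some a, some (a + 1))}) ++
  (List.finRange 6).map (fun a => {s(some a, some (a + 1)), s(some (a + 1), some (a + 2))}) ++
  (List.finRange 6).map (fun a => {s(some a, none), s(none, some (a + 2))}) ++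
  [0, 1, 2].map (fun a => {s(some a, none), s(none, some (a + 3))})

def ok (u w v : Option (Fin 6)) : Prop :=
  (wheel 6).Adj u w ∧ (wheel 6).Adj w v ∧ u ≠ v ∧ ¬ (wheel 6).Adj u v

instance (u w v : Option (Fin 6)) : Decidable (ok u w v) := by unfold ok; infer_instance

lemma k1 : ∀ u v, (wheel 6).Adj u v → ({s(u, v)} : Finset _) ∈ E1 := by decide +kernel

lemma k2 : ∀ u w v, ok u w v → ({s(u, w), s(w, v)} : Finset _) ∈ E1 := by decide +kernel

lemma geo_eq : geodesics (wheel 6) = ↑E1.toFinset := by
  ext s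
  rw [geo_iff _ (by decide +kernel)]
  simp only [List.coe_toFinset, Set.mem_ofPred_eq]
  constructor
  · rintro (⟨u, v, h, rfl⟩ | ⟨u, w, v, h1, h2, h3, h4, rfl⟩)
    · exact k1 u v h
    · exact k2 u w v ⟨h1, h2, h3, h4⟩
  · intro hs
    simp only [E1, List.mem_append, List.mem_map] at hs
    rcases hs with (((⟨a, -, rfl⟩ | ⟨a, -, rfl⟩) | ⟨a, -, rfl⟩) | ⟨a, -, rfl⟩) | ⟨a, -, rfl⟩
    · exact Or.inl ⟨none, some a, trivial, rfl⟩
    · exact Or.inl ⟨_, _, by revert a; decide, rfl⟩
    · have : ok (some a) (some (a + 1)) (some (a + 2)) := by revert a; decide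
      exact Or.inr ⟨_, _, _, this.1, this.2.1, this.2.2.1, this.2.2.2, rfl⟩
    · have : ok (some a) none (some (a + 2)) := by revert a; decide
      exact Or.inr ⟨_, _, _, this.1, this.2.1, this.2.2.1, this.2.2.2, rfl⟩
    · have : ok (some a) none (some (a + 3)) := by revert a; decide
      exact Or.inr ⟨_, _, _, this.1, this.2.1, this.2.2.1, this.2.2.2, rfl⟩

theorem result : ∃ n : ℕ, 7 ≤ n ∧ GeoLeech (wheel (n - 1)) := by
  refine ⟨7, le_rfl, lab, ?_, ?_⟩
  · intro e
    induction e using Sym2.ind with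
    | _ a b => simp only [mem_edgeSet]; revert a b; decide +kernel
  · show Set.BijOn _ (geodesics (wheel 6)) (Set.Icc 1 (geodesics (wheel 6)).ncard)
    rw [geo_eq, Set.ncard_coe_finset]
    have hc : E1.toFinset.card = 27 := by decide +kernel
    have him : E1.toFinset.image (fun s => ∑ e ∈ s, lab e) = Finset.Icc 1 27 := by
      decide +kernel
    rw [hc, ← Finset.coe_Icc, ← him, Finset.coe_image]
    refine Set.InjOn.bijOn_image (Finset.card_image_iff.1 ?_)
    rw [him, hc]; simp

end Pool.Agent.Results.MP_071a69_co.Counter
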